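import Pool.Agent.R542.SkewMain

/-!
# Finding skew partitions with all parts of linear size is NP-hard in bipartite graphs

Let `c ≥ 4`. `IsBalancedSkew c G p` says that the classes `A = 0`, `B = 1`, `C = 2`, `D = 3` of the
labelling `p` of the vertices form a skew partition of `G` all of whose four parts have at least
`n / c` vertices.

For rational `c` it is NP-hard (under polynomial-time many-one reductions) to decide whether a
bipartite, hence perfect, graph has such a partition. For every real `c` a polynomial-time algorithm
that, for all bipartite graphs, outputs such a partition or reports that there is none (or that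
only decides whether there is one) exists only if `P = NP`.

Proof. In a bipartite graph `C` and `D` are the two sides of a complete bipartite subgraph, and
with enough isolated vertices `A` and `B` do no harm; so the problem is to find a complete
bipartite subgraph with `⌈n / c⌉` vertices on each side. Given a graph `H` with `n` vertices, let the
left side consist of the vertices of `H` and the right side of the ordered pairs of nonadjacent
vertices, a vertex being adjacent to the pairs that do not contain it; add vertices adjacent to the
whole other side, and isolated vertices. For real `c` the numbers `⌊c K⌋` needed for this are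
computed with the help of the algorithm, from complete bipartite graphs with isolated vertices.
-/

set_option autoImplicit false

namespace Pool.Agent.Results.MP_447f9a_lc.BalancedSkewHard

open Pool.Agent.NPC Pool.Agent.NPC.R542 Pool.Agent.NPC.R542.Skew Pool.Agent.H692R2
  Pool.Agent.H673R2 Pool.Agent.W982.Hole

/-- **Balanced skew partitions of bipartite graphs are hard to find, for every constant `c ≥ 4`.** -/
theorem result :
    (∀ c : ℚ, 4 ≤ c →
      NPHardOn (fun G : FinGraph => G.graph.IsBipartite ∧ IsPerfect G.graph)
        (fun G => ∃ p, IsBalancedSkew (c : ℝ) G.graph p)) ∧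
    (∀ c : ℝ, 4 ≤ c →
      (∃ A : List Bool → List Bool, PolyTime A ∧
        SolvesSearch (fun G : FinGraph => G.graph.IsBipartite ∧ IsPerfect G.graph) (Sol c) A) →
      ∀ L : Set (List Bool), InNP L → InP L) ∧
    (∀ c : ℝ, 4 ≤ c →
      (∃ A : List Bool → List Bool, PolyTime A ∧
        ∀ G : FinGraph, G.graph.IsBipartite → IsPerfect G.graph →
          (A (bits G) = [true] ↔ ∃ p, IsBalancedSkew c G.graph p)) →
      ∀ L : Set (List Bool), InNP L → InP L) := by
  refine ⟨fun c hc => ?_, ?_, ?_⟩
  · have hc' : (4 : ℝ) ≤ c := by exact_mod_cast hc
    exact npHardOn_of (f := fun G : FinGraph => G) (hard_of_floor hc' (floorPoly_rat hc)) PC.id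
      (fun G hG => ⟨hG, isPerfect_of_isBipartite hG⟩) (fun G _ => Iff.rfl)
  · rintro c hc ⟨A, hA, hs⟩
    have ht := poly_after hA (g := fun y => decide (y.head? = some true))
      (NPC.Poly.decide_eq (NPC.Poly.head? NPC.Poly.id) (NPC.Poly.const _))
    refine collapse_of_test hc ht fun G hG => ?_
    rcases hs G ⟨hG, isPerfect_of_isBipartite hG⟩ with ⟨b, hb, p, hp, _⟩ | ⟨hb, hS⟩
    · rw [hb]
      exact ⟨fun _ => ⟨p, hp⟩, fun _ => by simp [bits, toT, T.enc]⟩
    · rw [hb]
      refine ⟨fun h => ?_, fun ⟨p, hp⟩ => absurd ⟨p, hp, rfl⟩ (hS _)⟩
      simp [bits, toT, T.enc] at h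
  · rintro c hc ⟨A, hA, hs⟩
    have ht := poly_after hA (g := fun y => decide (y = [true]))
      (NPC.Poly.decide_eq NPC.Poly.id (NPC.Poly.const _))
    refine collapse_of_test hc ht fun G hG => ?_
    rw [decide_eq_true_eq]
    exact hs G hG (isPerfect_of_isBipartite hG)

end Pool.Agent.Results.MP_447f9a_lc.BalancedSkewHard
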